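import Pool.Agent.Helper9.AP.GQb

/-! Block GQ of (A'), MP_8958e8: the constants. -/

set_option autoImplicit false

open Finset ArithmeticFunction Filter Topology

namespace Pool.Agent.Helper9.AP

/-- the first constant for `q = 1` -/
theorem Aq_one : Aq 1 = 1 := by
  set f : ℕ → ℝ := fun d => hq 1 d / d with hf
  have h1 : f 1 = 1 := by
    show hq 1 1 / ((1 : ℕ) : ℝ) = 1
    rw [hq_one]
    simp
  have hmul : ∀ {m n : ℕ}, Nat.Coprime m n → f (m * n) = f m * f n := by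
    intro m n h
    show hq 1 (m * n) / ((m * n : ℕ) : ℝ) = _
    rw [(hq_mult 1).map_mul_of_coprime h]
    push_cast
    rw [mul_div_mul_comm]
  have h0 : f 0 = 0 := by
    show hq 1 0 / ((0 : ℕ) : ℝ) = 0
    simp
  have hs : Summable (‖f ·‖) := (summ1 1 one_ne_zero).norm
  have h := EulerProduct.eulerProduct_hasProd h1 hmul hs h0
  have h2 : ∀ p : Nat.Primes, ∑' e, f ((p : ℕ) ^ e) = 1 := by
    intro p
    have hp := p.2
    have h3 : ∀ k, f ((p : ℕ) ^ (k + 3)) = 0 := by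
      intro k
      show hq 1 ((p : ℕ) ^ (k + 3)) / _ = 0
      rw [hq_p3 hp, zero_div]
    rw [(tsum_pow h3).2, h1]
    show 1 + hq 1 p / ((p : ℕ) : ℝ) + hq 1 ((p : ℕ) ^ 2) / (((p : ℕ) ^ 2 : ℕ) : ℝ) = 1
    have hnd : ¬ (p : ℕ) ∣ 1 := by
      intro h
      exact hp.one_lt.ne' (Nat.dvd_one.1 h)
    rw [hq_p hp, hq_p2 hp, if_neg hnd, if_neg hnd]
    have hp1 : (1 : ℝ) < ((p : ℕ) : ℝ) := by exact_mod_cast hp.one_lt
    have hp2 : ((p : ℕ) : ℝ) - 1 ≠ 0 := by linarith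
    push_cast
    field_simp
    ring
  have h3 : HasProd (fun _ : Nat.Primes => (1 : ℝ)) (∑' n, f n) := by
    refine h.congr_fun ?_
    intro p
    exact (h2 p).symm
  exact h3.unique hasProd_one

/-- splitting according to divisibility by `p` -/
theorem GG_rec {q p : ℕ} (hp : p.Prime) (hpq : ¬ p ∣ q) (m : ℕ) :
    GGq q (p * m) = GGq (q * p) (p * m) + GGq (q * p) m / ((p : ℝ) - 1) := by
  classical
  have hp1 : (1 : ℝ) < p := by exact_mod_cast hp.one_lt
  unfold GGq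
  rw [← sum_filter_add_sum_filter_not ((Icc 1 (p * m)).filter
    (fun r => Squarefree r ∧ Nat.Coprime r q)) (fun r => ¬ p ∣ r)]
  congr 1
  · rw [filter_filter]
    refine sum_congr ?_ fun _ _ => rfl
    refine filter_congr fun r _ => ?_
    rw [Nat.coprime_mul_iff_right, ← hp.coprime_iff_not_dvd, Nat.coprime_comm (n := r) (m := p)]
    tauto
  · rw [filter_filter, sum_div]
    symm
    refine sum_nbij (fun r => p * r) ?_ ?_ ?_ ?_
    · intro r hr
      rw [mem_filter, mem_Icc, Nat.coprime_mul_iff_right] at hr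
      obtain ⟨⟨ha, hb⟩, hc, hd, he⟩ := hr
      rw [mem_filter, mem_Icc]
      refine ⟨⟨Nat.mul_pos hp.pos ha, Nat.mul_le_mul_left _ hb⟩, ⟨?_, ?_⟩, ?_⟩
      · rw [Nat.squarefree_mul he.symm]
        exact ⟨hp.prime.squarefree, hc⟩
      · exact Nat.Coprime.mul_left (hp.coprime_iff_not_dvd.2 hpq) hd
      · rw [not_not]
        exact dvd_mul_right _ _
    · intro r _ r' _ h
      exact Nat.eq_of_mul_eq_mul_left hp.pos h
    · intro n hn
      simp only [coe_filter, mem_Icc, Set.mem_ofPred_eq, not_not] at hn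
      obtain ⟨⟨ha, hb⟩, ⟨hc, hd⟩, r, rfl⟩ := hn
      refine ⟨r, ?_, rfl⟩
      simp only [coe_filter, mem_Icc, Set.mem_ofPred_eq]
      rw [Nat.squarefree_mul_iff] at hc
      rw [Nat.coprime_mul_iff_left] at hd
      refine ⟨⟨?_, Nat.le_of_mul_le_mul_left hb hp.pos⟩, hc.2.2,
        Nat.coprime_mul_iff_right.2 ⟨hd.2, hc.1.symm⟩⟩
      rcases Nat.eq_zero_or_pos r with h0 | h0
      · rw [h0, mul_zero] at ha
        omega
      · exact h0
    · intro r hr
      rw [mem_filter, Nat.coprime_mul_iff_right] at hr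
      rw [Nat.totient_mul hr.2.2.2.symm, Nat.totient_prime hp]
      push_cast
      rw [Nat.cast_sub hp.one_le, Nat.cast_one, div_div, mul_comm]

/-- the error tends to zero -/
theorem err_tendsto (q : ℕ) (hq0 : q ≠ 0) {φ : ℕ → ℕ} (hφ : Tendsto φ atTop atTop) :
    Tendsto (fun m => GGq q (φ m) - (Aq q * Real.log (φ m) + Bq q)) atTop (𝓝 0) := by
  have h1 : Tendsto (fun m => 5 * KK * (q.divisors.card : ℝ) * ((φ m : ℕ) : ℝ) ^ (-(1 / 3) : ℝ))
      atTop (𝓝 (5 * KK * (q.divisors.card : ℝ) * 0)) := by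
    apply Tendsto.const_mul
    exact (tendsto_rpow_neg_atTop (show (0 : ℝ) < 1 / 3 by norm_num)).comp
      (tendsto_natCast_atTop_atTop.comp hφ)
  rw [mul_zero] at h1
  refine squeeze_zero_norm' ?_ h1
  filter_upwards [hφ.eventually_ge_atTop 1] with m hm
  rw [Real.norm_eq_abs]
  exact asym q hq0 hm

/-- comparison of the constants -/
theorem const_zero {x y : ℝ}
    (h : Tendsto (fun m : ℕ => x * Real.log m + y) atTop (𝓝 0)) : x = 0 ∧ y = 0 := by
  have hl : Tendsto (fun m : ℕ => Real.log m) atTop atTop :=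
    Real.tendsto_log_atTop.comp tendsto_natCast_atTop_atTop
  have h1 : Tendsto (fun m : ℕ => (x * Real.log m + y) * (Real.log m)⁻¹) atTop (𝓝 (0 * 0)) :=
    h.mul hl.inv_tendsto_atTop
  have h2 : Tendsto (fun m : ℕ => x + y * (Real.log m)⁻¹) atTop (𝓝 (x + y * 0)) :=
    (hl.inv_tendsto_atTop.const_mul y).const_add x
  have h3 : (fun m : ℕ => (x * Real.log m + y) * (Real.log m)⁻¹) =ᶠ[atTop]
      fun m : ℕ => x + y * (Real.log m)⁻¹ := by
    filter_upwards [hl.eventually_gt_atTop 0] with m hm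
    field_simp
  have hx : x = 0 := by
    have := tendsto_nhds_unique (h1.congr' h3) h2
    linarith
  refine ⟨hx, ?_⟩
  rw [hx] at h
  simp only [zero_mul, zero_add] at h
  exact tendsto_nhds_unique tendsto_const_nhds h

theorem const_rec {q p : ℕ} (hq0 : q ≠ 0) (hp : p.Prime) (hpq : ¬ p ∣ q) :
    Aq (q * p) = Aq q * (1 - (p : ℝ)⁻¹) ∧
      Bq (q * p) = Bq q * (1 - (p : ℝ)⁻¹) + Aq (q * p) * (Real.log p / p) := by
  have hp0 : (0 : ℝ) < p := by exact_mod_cast hp.pos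
  have hp1 : (1 : ℝ) < p := by exact_mod_cast hp.one_lt
  have hqp : q * p ≠ 0 := Nat.mul_ne_zero hq0 hp.ne_zero
  have hφ : Tendsto (fun m : ℕ => p * m) atTop atTop :=
    tendsto_id.const_mul_atTop' hp.pos
  have e1 := err_tendsto q hq0 hφ
  have e2 := err_tendsto (q * p) hqp hφ
  have e3 := (err_tendsto (q * p) hqp tendsto_id).div_const ((p : ℝ) - 1)
  have h := e1.sub (e2.add e3)
  simp only [zero_div, add_zero, sub_zero] at h
  have h2 : Tendsto (fun m : ℕ => (Aq (q * p) * (p / (p - 1)) - Aq q) * Real.log m +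
      ((Aq (q * p) - Aq q) * Real.log p + Bq (q * p) * (p / (p - 1)) - Bq q)) atTop (𝓝 0) := by
    refine h.congr' ?_
    filter_upwards [eventually_ge_atTop 1] with m hm
    have hm0 : (0 : ℝ) < m := by exact_mod_cast hm
    rw [GG_rec hp hpq m]
    simp only [id]
    push_cast
    rw [Real.log_mul hp0.ne' hm0.ne']
    have : (p : ℝ) - 1 ≠ 0 := by linarith
    field_simp
    ring
  obtain ⟨h3, h4⟩ := const_zero h2
  have hpm : (p : ℝ) - 1 ≠ 0 := by linarith
  have h5 : Aq (q * p) = Aq q * (1 - (p : ℝ)⁻¹) := by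
    field_simp at h3 ⊢
    linarith
  refine ⟨h5, ?_⟩
  have h6 : Bq (q * p) * (p / (p - 1)) = Bq q + (Aq q - Aq (q * p)) * Real.log p := by linarith
  have h7 : Bq (q * p) = (Bq q + (Aq q - Aq (q * p)) * Real.log p) * ((p - 1) / p) := by
    rw [← h6]
    field_simp
  rw [h7, h5]
  field_simp
  ring

theorem consts (S : Finset ℕ) (hS : ∀ p ∈ S, p.Prime) :
    Aq (∏ p ∈ S, p) = ∏ p ∈ S, (1 - (p : ℝ)⁻¹) ∧
      Bq (∏ p ∈ S, p) = (∏ p ∈ S, (1 - (p : ℝ)⁻¹)) * (Bq 1 + ∑ p ∈ S, Real.log p / p) := by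
  induction S using Finset.induction_on with
  | empty =>
    simp only [prod_empty, sum_empty, add_zero, one_mul, and_true]
    exact Aq_one
  | insert p S hpS ih =>
    have hp : p.Prime := hS p (mem_insert_self _ _)
    have hS' : ∀ p ∈ S, p.Prime := fun r hr => hS r (mem_insert_of_mem hr)
    obtain ⟨ih1, ih2⟩ := ih hS'
    have hq0 : (∏ r ∈ S, r) ≠ 0 := prod_ne_zero_iff.2 fun r hr => (hS' r hr).ne_zero
    have hpq : ¬ p ∣ ∏ r ∈ S, r := by
      intro h
      obtain ⟨r, hr, hd⟩ := (hp.prime.dvd_finsetProd_iff _).1 h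
      have : p = r := (Nat.prime_dvd_prime_iff_eq hp (hS' r hr)).1 hd
      exact hpS (this ▸ hr)
    obtain ⟨r1, r2⟩ := const_rec hq0 hp hpq
    rw [prod_insert hpS, prod_insert hpS, sum_insert hpS, mul_comm p, r2, r1, ih1, ih2]
    constructor <;> ring

theorem GQ_core : ∃ C₀ C : ℝ, 0 < C ∧ ∀ q R : ℕ, Squarefree q → 1 ≤ R →
    |GGq q R - (Nat.totient q : ℝ) / q * (Real.log R + C₀ + ∑ p ∈ q.primeFactors, Real.log p / p)| ≤
      C * (q.divisors.card : ℝ) * (1 + Real.log R) * (R : ℝ) ^ (-(1 / 3 : ℝ)) := by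
  refine ⟨Bq 1, 5 * KK, by unfold KK; positivity, fun q R hq1 hR => ?_⟩
  have hq0 : q ≠ 0 := hq1.ne_zero
  have hq0' : (0 : ℝ) < q := by exact_mod_cast Nat.pos_of_ne_zero hq0
  have h1 := asym q hq0 hR
  obtain ⟨c1, c2⟩ := consts q.primeFactors fun p hp => Nat.prime_of_mem_primeFactors hp
  rw [Nat.prod_primeFactors_of_squarefree hq1] at c1 c2
  have h2 : (Nat.totient q : ℝ) / q = ∏ p ∈ q.primeFactors, (1 - (p : ℝ)⁻¹) := by
    have h := Nat.totient_eq_mul_prod_factors q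
    have h' : ((Nat.totient q : ℚ) : ℝ) = (((q : ℚ) * ∏ p ∈ q.primeFactors, (1 - (p : ℚ)⁻¹) : ℚ) : ℝ) := by
      rw [h]
    push_cast at h'
    rw [h']
    field_simp
  rw [c1, c2, ← h2] at h1
  have h3 : (Nat.totient q : ℝ) / q * Real.log R + (Nat.totient q : ℝ) / q *
      (Bq 1 + ∑ p ∈ q.primeFactors, Real.log p / p) =
      (Nat.totient q : ℝ) / q * (Real.log R + Bq 1 + ∑ p ∈ q.primeFactors, Real.log p / p) := by ring
  rw [h3] at h1
  refine h1.trans ?_
  have hl : 0 ≤ Real.log R := Real.log_natCast_nonneg _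
  have hK : 0 ≤ KK := by unfold KK; positivity
  calc 5 * KK * (q.divisors.card : ℝ) * (R : ℝ) ^ (-(1 / 3) : ℝ)
      = 5 * KK * (q.divisors.card : ℝ) * 1 * (R : ℝ) ^ (-(1 / 3) : ℝ) := by ring
    _ ≤ 5 * KK * (q.divisors.card : ℝ) * (1 + Real.log R) * (R : ℝ) ^ (-(1 / 3 : ℝ)) := by
        gcongr
        linarith

end Pool.Agent.Helper9.AP
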