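import Pool.Agent.Helper56.AP.Defs
import Pool.Agent.Helper9.AP.GQc

/-! Block GQ of (A'), MP_8958e8. -/

set_option autoImplicit false

namespace Pool.Agent.AP

theorem GQ : ∃ C₀ C : ℝ, 0 < C ∧ ∀ q R : ℕ, Squarefree q → 1 ≤ R →
    |GG q R - (Nat.totient q : ℝ) / q * (Real.log R + C₀ + ∑ p ∈ q.primeFactors, Real.log p / p)| ≤
      C * (q.divisors.card : ℝ) * (1 + Real.log R) * (R : ℝ) ^ (-(1 / 3 : ℝ)) :=
  Pool.Agent.Helper9.AP.GQ_core

end Pool.Agent.AP
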