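import Mathlib

/-! Block GQ of (A'), MP_8958e8: the convolution kernel. -/

set_option autoImplicit false

open Finset ArithmeticFunction

namespace Pool.Agent.Helper9.AP

/-- `μ²(n) n / φ(n)` on the integers coprime to `q` -/
noncomputable def Fq (q : ℕ) : ArithmeticFunction ℝ :=
  ⟨fun n => if Squarefree n ∧ Nat.Coprime n q then (n : ℝ) / Nat.totient n else 0, by simp⟩

theorem Fq_apply (q n : ℕ) :
    Fq q n = if Squarefree n ∧ Nat.Coprime n q then (n : ℝ) / Nat.totient n else 0 := rfl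

theorem Fq_mult (q : ℕ) : (Fq q).IsMultiplicative := by
  rw [IsMultiplicative.iff_ne_zero]
  refine ⟨by simp [Fq_apply], fun {m n} hm hn hmn => ?_⟩
  rw [Fq_apply, Fq_apply, Fq_apply]
  have h1 : (Squarefree (m * n) ∧ Nat.Coprime (m * n) q) ↔
      (Squarefree m ∧ Nat.Coprime m q) ∧ (Squarefree n ∧ Nat.Coprime n q) := by
    rw [Nat.squarefree_mul hmn, Nat.coprime_mul_iff_left]
    tauto
  by_cases h2 : Squarefree m ∧ Nat.Coprime m q
  · by_cases h3 : Squarefree n ∧ Nat.Coprime n q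
    · rw [if_pos (h1.2 ⟨h2, h3⟩), if_pos h2, if_pos h3, Nat.totient_mul hmn]
      push_cast
      rw [mul_div_mul_comm]
    · rw [if_neg (fun h => h3 (h1.1 h).2), if_neg h3, mul_zero]
  · rw [if_neg (fun h => h2 (h1.1 h).1), if_neg h2, zero_mul]

/-- the kernel -/
noncomputable def hq (q : ℕ) : ArithmeticFunction ℝ := (moebius : ArithmeticFunction ℝ) * Fq q

theorem hq_mult (q : ℕ) : (hq q).IsMultiplicative :=
  (isMultiplicative_moebius.intCast).mul (Fq_mult q)

theorem sum_hq (q n : ℕ) : ∑ d ∈ n.divisors, hq q d = Fq q n := by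
  rw [← coe_zeta_mul_apply, hq, ← mul_assoc, coe_zeta_mul_coe_moebius, one_mul]

theorem hq_pow {q p : ℕ} (hp : p.Prime) (k : ℕ) :
    hq q (p ^ (k + 1)) = Fq q (p ^ (k + 1)) - Fq q (p ^ k) := by
  have h1 := sum_hq q (p ^ (k + 1))
  have h2 := sum_hq q (p ^ k)
  rw [Nat.sum_divisors_prime_pow hp] at h1 h2
  rw [sum_range_succ] at h1
  linarith

theorem Fq_one (q : ℕ) : Fq q 1 = 1 := (Fq_mult q).map_one

theorem hq_one (q : ℕ) : hq q 1 = 1 := (hq_mult q).map_one

theorem Fq_prime {q p : ℕ} (hp : p.Prime) :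
    Fq q p = if p ∣ q then 0 else (p : ℝ) / (p - 1) := by
  rw [Fq_apply]
  by_cases h : p ∣ q
  · rw [if_pos h, if_neg]
    rintro ⟨-, h2⟩
    exact (hp.coprime_iff_not_dvd.1 h2) h
  · rw [if_neg h, if_pos ⟨hp.prime.squarefree, hp.coprime_iff_not_dvd.2 h⟩, Nat.totient_prime hp,
      Nat.cast_sub hp.one_le]
    simp

theorem Fq_pow {q p : ℕ} (hp : p.Prime) (k : ℕ) : Fq q (p ^ (k + 2)) = 0 := by
  rw [Fq_apply, if_neg]
  rintro ⟨h, -⟩
  have := (Nat.squarefree_pow_iff hp.ne_one (by omega)).1 h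
  omega

theorem hq_p {q p : ℕ} (hp : p.Prime) : hq q p = if p ∣ q then -1 else 1 / ((p : ℝ) - 1) := by
  have h := hq_pow (q := q) hp 0
  rw [zero_add, pow_one, pow_zero, Fq_one, Fq_prime hp] at h
  rw [h]
  have hp1 : (1 : ℝ) < p := by exact_mod_cast hp.one_lt
  have : (p : ℝ) - 1 ≠ 0 := by linarith
  split_ifs
  · ring
  · field_simp
    ring

theorem hq_p2 {q p : ℕ} (hp : p.Prime) :
    hq q (p ^ 2) = if p ∣ q then 0 else -((p : ℝ) / (p - 1)) := by
  have h := hq_pow (q := q) hp 1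
  rw [Fq_pow hp 0, pow_one, Fq_prime hp] at h
  rw [h]
  split_ifs <;> ring

theorem hq_p3 {q p : ℕ} (hp : p.Prime) (k : ℕ) : hq q (p ^ (k + 3)) = 0 := by
  have h := hq_pow (q := q) hp (k + 2)
  rw [Fq_pow hp k, Fq_pow hp (k + 1)] at h
  rw [h, sub_zero]

/-- the majorant -/
noncomputable def fq (q d : ℕ) : ℝ := |hq q d| * (d : ℝ) ^ (-(2 / 3) : ℝ)

theorem fq_nonneg (q d : ℕ) : 0 ≤ fq q d := by
  unfold fq
  positivity

theorem fq_zero (q : ℕ) : fq q 0 = 0 := by
  unfold fq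
  rw [ArithmeticFunction.map_zero, abs_zero, zero_mul]

theorem fq_one (q : ℕ) : fq q 1 = 1 := by
  unfold fq
  rw [hq_one]
  simp

theorem fq_mul (q : ℕ) {m n : ℕ} (h : Nat.Coprime m n) : fq q (m * n) = fq q m * fq q n := by
  unfold fq
  rw [(hq_mult q).map_mul_of_coprime h, abs_mul, Nat.cast_mul,
    Real.mul_rpow (Nat.cast_nonneg _) (Nat.cast_nonneg _)]
  ring

theorem tsum_pow {f : ℕ → ℝ} {p : ℕ} (h : ∀ k, f (p ^ (k + 3)) = 0) :
    Summable (fun e => f (p ^ e)) ∧ ∑' e, f (p ^ e) = f 1 + f p + f (p ^ 2) := by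
  have h1 : ∀ e ∉ range 3, f (p ^ e) = 0 := by
    intro e he
    rw [mem_range, not_lt] at he
    obtain ⟨k, rfl⟩ := Nat.exists_eq_add_of_le' he
    exact h k
  refine ⟨summable_of_ne_finset_zero h1, ?_⟩
  rw [tsum_eq_sum h1]
  simp [sum_range_succ]

/-- the constant -/
noncomputable def KK : ℝ := Real.exp (4 * ∑' n : ℕ, (n : ℝ) ^ (-(4 / 3) : ℝ))

theorem summ43 : Summable fun n : ℕ => (n : ℝ) ^ (-(4 / 3) : ℝ) :=
  Real.summable_nat_rpow.2 (by norm_num)

theorem euler_factor {q p : ℕ} (hp : p.Prime) :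
    ∑' e, fq q (p ^ e) ≤ (if p ∣ q then 2 else 1) * Real.exp (4 * (p : ℝ) ^ (-(4 / 3) : ℝ)) := by
  have hp0 : (0 : ℝ) < p := by exact_mod_cast hp.pos
  have hp2 : (2 : ℝ) ≤ p := by exact_mod_cast hp.two_le
  have h3 : ∀ k, fq q (p ^ (k + 3)) = 0 := by
    intro k
    unfold fq
    rw [hq_p3 hp, abs_zero, zero_mul]
  rw [(tsum_pow h3).2, fq_one]
  have hx0 : (0 : ℝ) ≤ (p : ℝ) ^ (-(4 / 3) : ℝ) := by positivity
  have hexp := Real.add_one_le_exp (4 * (p : ℝ) ^ (-(4 / 3) : ℝ))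
  unfold fq
  rw [hq_p hp, hq_p2 hp]
  split_ifs with h
  · rw [abs_neg, abs_one, abs_zero, zero_mul, add_zero, one_mul]
    have h4 : (p : ℝ) ^ (-(2 / 3) : ℝ) ≤ 1 :=
      Real.rpow_le_one_of_one_le_of_nonpos (by linarith) (by norm_num)
    linarith
  · have hp1 : (0 : ℝ) < (p : ℝ) - 1 := by linarith
    have h5 : 1 / ((p : ℝ) - 1) ≤ 2 / p := by
      rw [div_le_div_iff₀ hp1 hp0]
      linarith
    have e1 : (p : ℝ) ^ (-(2 / 3) : ℝ) / p ≤ (p : ℝ) ^ (-(4 / 3) : ℝ) := by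
      rw [← Real.rpow_sub_one hp0.ne']
      exact Real.rpow_le_rpow_of_exponent_le (by linarith) (by norm_num)
    have e2 : ((p ^ 2 : ℕ) : ℝ) ^ (-(2 / 3) : ℝ) = (p : ℝ) ^ (-(4 / 3) : ℝ) := by
      push_cast
      rw [← Real.rpow_natCast, ← Real.rpow_mul hp0.le]
      norm_num
    rw [abs_neg, abs_of_pos (by positivity), abs_of_pos (by positivity), e2]
    have h6 : 1 / ((p : ℝ) - 1) * (p : ℝ) ^ (-(2 / 3) : ℝ) ≤ 2 * (p : ℝ) ^ (-(4 / 3) : ℝ) := by
      calc 1 / ((p : ℝ) - 1) * (p : ℝ) ^ (-(2 / 3) : ℝ) ≤ 2 / p * (p : ℝ) ^ (-(2 / 3) : ℝ) := by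
            gcongr
        _ = 2 * ((p : ℝ) ^ (-(2 / 3) : ℝ) / p) := by ring
        _ ≤ _ := by gcongr
    have h7 : (p : ℝ) / (p - 1) ≤ 2 := by
      rw [div_le_iff₀ hp1]
      linarith
    have h8 : (p : ℝ) / (p - 1) * (p : ℝ) ^ (-(4 / 3) : ℝ) ≤ 2 * (p : ℝ) ^ (-(4 / 3) : ℝ) := by
      gcongr
    linarith

theorem two_pow_le (q : ℕ) (hq : q ≠ 0) : 2 ^ q.primeFactors.card ≤ q.divisors.card := by
  rw [Nat.card_divisors hq]
  calc 2 ^ q.primeFactors.card = ∏ _p ∈ q.primeFactors, 2 := by rw [prod_const]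
    _ ≤ _ := by
      refine prod_le_prod' fun p hp => ?_
      have : 1 ≤ q.factorization p := by
        rw [Nat.one_le_iff_ne_zero, ← Finsupp.mem_support_iff, Nat.support_factorization]
        exact hp
      omega

theorem prod_bd (q : ℕ) (hq : q ≠ 0) (N : ℕ) :
    ∏ p ∈ N.primesBelow, ∑' e, fq q (p ^ e) ≤ KK * (q.divisors.card : ℝ) := by
  calc ∏ p ∈ N.primesBelow, ∑' e, fq q (p ^ e)
      ≤ ∏ p ∈ N.primesBelow,
          ((if p ∣ q then 2 else 1) * Real.exp (4 * (p : ℝ) ^ (-(4 / 3) : ℝ))) := by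
        refine prod_le_prod (fun p _ => tsum_nonneg fun e => fq_nonneg _ _) fun p hp => ?_
        exact euler_factor (Nat.prime_of_mem_primesBelow hp)
    _ = (∏ p ∈ N.primesBelow, if p ∣ q then (2 : ℝ) else 1) *
          Real.exp (∑ p ∈ N.primesBelow, 4 * (p : ℝ) ^ (-(4 / 3) : ℝ)) := by
        rw [prod_mul_distrib, Real.exp_sum]
    _ ≤ (q.divisors.card : ℝ) * KK := by
        have h1 : (∏ p ∈ N.primesBelow, if p ∣ q then (2 : ℝ) else 1) ≤ q.divisors.card := by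
          rw [prod_ite, prod_const_one, mul_one, prod_const]
          refine le_trans ?_ (show ((2 ^ q.primeFactors.card : ℕ) : ℝ) ≤ _ by
            exact_mod_cast two_pow_le q hq)
          push_cast
          apply pow_le_pow_right₀ (by norm_num)
          apply card_le_card
          intro p hp
          rw [mem_filter] at hp
          exact Nat.mem_primeFactors.2 ⟨Nat.prime_of_mem_primesBelow hp.1, hp.2, hq⟩
        have h2 : Real.exp (∑ p ∈ N.primesBelow, 4 * (p : ℝ) ^ (-(4 / 3) : ℝ)) ≤ KK := by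
          unfold KK
          rw [Real.exp_le_exp, ← mul_sum]
          have := summ43.sum_le_tsum N.primesBelow (fun n _ => by positivity)
          linarith
        have h0 : 0 ≤ Real.exp (∑ p ∈ N.primesBelow, 4 * (p : ℝ) ^ (-(4 / 3) : ℝ)) :=
          (Real.exp_pos _).le
        exact mul_le_mul h1 h2 h0 (by positivity)
    _ = _ := by ring

theorem fq_summ (q : ℕ) (hq : q ≠ 0) :
    Summable (fq q) ∧ ∑' d, fq q d ≤ KK * (q.divisors.card : ℝ) := by
  have key : ∀ N : ℕ, ∑ d ∈ range N, fq q d ≤ KK * (q.divisors.card : ℝ) := by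
    intro N
    have h1 := (EulerProduct.summable_and_hasSum_smoothNumbers_prod_primesBelow_tsum (f := fq q)
      (fq_one q) (fun {m n} h => fq_mul q h) (fun {p} hp => by
        have h3 : ∀ k, fq q (p ^ (k + 3)) = 0 := by
          intro k
          unfold fq
          rw [hq_p3 hp, abs_zero, zero_mul]
        exact (tsum_pow h3).1.norm) N).2
    have h2 : HasSum (Set.indicator (N.smoothNumbers) (fq q))
        (∏ p ∈ N.primesBelow, ∑' e, fq q (p ^ e)) := by
      rw [← hasSum_subtype_iff_indicator]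
      exact h1
    have h3 := sum_le_hasSum (range N)
      (fun d _ => Set.indicator_nonneg (fun d _ => fq_nonneg q d) d) h2
    refine le_trans (le_of_eq ?_) (h3.trans (prod_bd q hq N))
    refine sum_congr rfl fun d hd => ?_
    rcases Nat.eq_zero_or_pos d with h0 | h0
    · rw [h0, fq_zero, Set.indicator_apply]
      split_ifs
      · exact (fq_zero q).symm
      · rfl
    · rw [Set.indicator_of_mem]
      exact Nat.mem_smoothNumbers_of_lt h0 (mem_range.1 hd)
  exact ⟨summable_of_sum_range_le (fq_nonneg q) key, Real.tsum_le_of_sum_range_le (fq_nonneg q) key⟩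

end Pool.Agent.Helper9.AP
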