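import Pool.Agent.Helper9.AP.GQa

/-! Block GQ of (A'), MP_8958e8: the asymptotic formula with abstract constants. -/

set_option autoImplicit false

open Finset ArithmeticFunction

namespace Pool.Agent.Helper9.AP

/-- `∑_{r ≤ R, (r,q)=1} μ²(r)/φ(r)` -/
noncomputable def GGq (q R : ℕ) : ℝ :=
  ∑ r ∈ (Finset.Icc 1 R).filter (fun r => Squarefree r ∧ Nat.Coprime r q), (1 : ℝ) / Nat.totient r

theorem swap_div (R : ℕ) (g : ℕ → ℕ → ℝ) :
    ∑ n ∈ Icc 1 R, ∑ d ∈ n.divisors, g d n = ∑ d ∈ Icc 1 R, ∑ m ∈ Icc 1 (R / d), g d (d * m) := by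
  have h1 : ∀ n ∈ Icc 1 R, ∑ d ∈ n.divisors, g d n = ∑ d ∈ Icc 1 R, if d ∣ n then g d n else 0 := by
    intro n hn
    rw [mem_Icc] at hn
    rw [← sum_filter]
    refine sum_congr ?_ fun _ _ => rfl
    ext d
    simp only [Nat.mem_divisors, mem_filter, mem_Icc]
    constructor
    · rintro ⟨h, h'⟩
      exact ⟨⟨Nat.pos_of_dvd_of_pos h (by omega), (Nat.le_of_dvd (by omega) h).trans hn.2⟩, h⟩
    · rintro ⟨-, h⟩
      exact ⟨h, by omega⟩
  rw [sum_congr rfl h1, sum_comm]
  refine sum_congr rfl fun d hd => ?_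
  rw [mem_Icc] at hd
  rw [← sum_filter]
  symm
  refine sum_nbij (fun m => d * m) ?_ ?_ ?_ (fun _ _ => rfl)
  · intro m hm
    rw [mem_Icc] at hm
    simp only [mem_filter, mem_Icc]
    refine ⟨⟨Nat.mul_pos hd.1 hm.1, ?_⟩, dvd_mul_right _ _⟩
    rw [mul_comm]
    exact (Nat.le_div_iff_mul_le hd.1).1 hm.2
  · intro m _ m' _ h
    exact Nat.eq_of_mul_eq_mul_left hd.1 h
  · intro n hn
    simp only [coe_filter, mem_Icc, Set.mem_ofPred_eq] at hn
    obtain ⟨⟨ha, hb⟩, m, rfl⟩ := hn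
    refine ⟨m, ?_, rfl⟩
    simp only [coe_Icc, Set.mem_Icc]
    refine ⟨?_, ?_⟩
    · rcases Nat.eq_zero_or_pos m with h0 | h0
      · rw [h0, mul_zero] at ha
        omega
      · exact h0
    · rw [Nat.le_div_iff_mul_le hd.1, mul_comm]
      exact hb

/-- the harmonic sum -/
noncomputable def HH (n : ℕ) : ℝ := ∑ m ∈ Icc 1 n, (1 : ℝ) / m

theorem HH_zero : HH 0 = 0 := by simp [HH]

theorem HH_eq (n : ℕ) : HH n = ((harmonic n : ℚ) : ℝ) := by
  rw [harmonic_eq_sum_Icc, HH]
  push_cast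
  exact sum_congr rfl fun m _ => one_div _

theorem GGq_eq (q R : ℕ) : GGq q R = ∑ d ∈ Icc 1 R, hq q d / d * HH (R / d) := by
  have h1 : GGq q R = ∑ n ∈ Icc 1 R, ∑ d ∈ n.divisors, hq q d / n := by
    unfold GGq
    rw [sum_filter]
    refine sum_congr rfl fun n hn => ?_
    rw [mem_Icc] at hn
    have hn0 : (n : ℝ) ≠ 0 := by exact_mod_cast (by omega : n ≠ 0)
    rw [← sum_div, sum_hq, Fq_apply]
    split_ifs
    · field_simp
    · rw [zero_div]
  rw [h1, swap_div R fun d n => hq q d / n]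
  refine sum_congr rfl fun d _ => ?_
  rw [HH, mul_sum]
  refine sum_congr rfl fun m _ => ?_
  push_cast
  rw [div_mul_div_comm, mul_one]

theorem harm_bd {R d : ℕ} (hR : 1 ≤ R) (hd : 1 ≤ d) :
    |HH (R / d) - (Real.log R - Real.log d + Real.eulerMascheroniConstant)| ≤
      5 * ((R : ℝ) / d) ^ (-(1 / 3) : ℝ) := by
  have hR0 : (0 : ℝ) < R := by exact_mod_cast hR
  have hd0 : (0 : ℝ) < d := by exact_mod_cast hd
  set y : ℝ := (R : ℝ) / d with hy
  have hy0 : 0 < y := by positivity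
  have e1 : Real.log R - Real.log d = Real.log y := by
    rw [hy, Real.log_div hR0.ne' hd0.ne']
  rw [e1]
  have g1 := Real.one_half_lt_eulerMascheroniConstant
  have g2 := Real.eulerMascheroniConstant_lt_two_thirds
  set γ := Real.eulerMascheroniConstant with hγ
  have hfl := Nat.lt_floor_add_one y
  rw [hy, Nat.floor_div_eq_div, ← hy] at hfl
  have hle : ((R / d : ℕ) : ℝ) ≤ y := Nat.cast_div_le
  have hyp : 0 < y ^ (-(1 / 3) : ℝ) := by positivity
  rcases Nat.eq_zero_or_pos (R / d) with h0 | h0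
  · rw [h0] at hfl
    rw [h0, HH_zero]
    have hy1 : y < 1 := by
      push_cast at hfl
      linarith
    have h2 : -Real.log y ≤ 3 * y ^ (-(1 / 3) : ℝ) := by
      have h3 := Real.log_le_rpow_div (show (0 : ℝ) ≤ y⁻¹ by positivity) (show (0 : ℝ) < 1 / 3 by norm_num)
      rw [Real.log_inv, Real.inv_rpow hy0.le, ← Real.rpow_neg hy0.le] at h3
      linarith
    have h4 : 1 ≤ y ^ (-(1 / 3) : ℝ) :=
      Real.one_le_rpow_of_pos_of_le_one_of_nonpos hy0 hy1.le (by norm_num)
    have h5 : Real.log y < 0 := Real.log_neg hy0 hy1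
    rw [abs_le]
    constructor <;> linarith
  · set n := R / d with hn
    have hn0 : (0 : ℝ) < n := by exact_mod_cast h0
    have hn1 : (1 : ℝ) ≤ n := by exact_mod_cast h0
    have hy1 : 1 ≤ y := hn1.trans hle
    have h2 := Real.eulerMascheroniSeq_lt_eulerMascheroniConstant n
    have h3 := Real.eulerMascheroniConstant_lt_eulerMascheroniSeq' n
    rw [Real.eulerMascheroniSeq, ← HH_eq, ← hγ] at h2
    rw [Real.eulerMascheroniSeq', if_neg h0.ne', ← HH_eq, ← hγ] at h3
    have h4 : Real.log n ≤ Real.log y := Real.log_le_log hn0 hle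
    have h5 : Real.log y ≤ Real.log (n + 1) := Real.log_le_log hy0 hfl.le
    have h6 : Real.log (n + 1) - Real.log n ≤ 1 / n := by
      rw [← Real.log_div (by positivity) hn0.ne']
      have := Real.log_le_sub_one_of_pos (show (0 : ℝ) < (n + 1) / n by positivity)
      refine this.trans (le_of_eq ?_)
      field_simp
      ring
    have h7 : 1 / (n : ℝ) ≤ 2 * y ^ (-(1 / 3) : ℝ) := by
      calc 1 / (n : ℝ) ≤ 2 / y := by
            rw [div_le_div_iff₀ hn0 hy0]
            linarith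
        _ = 2 * y ^ (-1 : ℝ) := by rw [Real.rpow_neg_one]; ring
        _ ≤ _ := by
            have : y ^ (-1 : ℝ) ≤ y ^ (-(1 / 3) : ℝ) :=
              Real.rpow_le_rpow_of_exponent_le hy1 (by norm_num)
            gcongr
    rw [abs_le]
    constructor <;> linarith

/-- the first constant -/
noncomputable def Aq (q : ℕ) : ℝ := ∑' d : ℕ, hq q d / d

/-- the second constant -/
noncomputable def Bq (q : ℕ) : ℝ :=
  ∑' d : ℕ, hq q d / d * (Real.eulerMascheroniConstant - Real.log d)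

theorem t1_bd (q d : ℕ) : |hq q d / d| ≤ fq q d := by
  rcases Nat.eq_zero_or_pos d with h0 | h0
  · rw [h0, fq_zero]
    simp
  · have hd0 : (0 : ℝ) < d := by exact_mod_cast h0
    have hd1 : (1 : ℝ) ≤ d := by exact_mod_cast h0
    rw [abs_div, abs_of_pos hd0, fq, div_eq_mul_inv, ← Real.rpow_neg_one]
    have : (d : ℝ) ^ (-1 : ℝ) ≤ (d : ℝ) ^ (-(2 / 3) : ℝ) :=
      Real.rpow_le_rpow_of_exponent_le hd1 (by norm_num)
    gcongr

theorem t2_bd (q d : ℕ) : |hq q d / d * Real.log d| ≤ 3 * fq q d := by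
  rcases Nat.eq_zero_or_pos d with h0 | h0
  · rw [h0, fq_zero]
    simp
  · have hd0 : (0 : ℝ) < d := by exact_mod_cast h0
    have hd1 : (1 : ℝ) ≤ d := by exact_mod_cast h0
    have h1 : 0 ≤ Real.log d := Real.log_nonneg hd1
    have h2 : Real.log d ≤ 3 * (d : ℝ) ^ (1 / 3 : ℝ) := by
      have := Real.log_le_rpow_div hd0.le (show (0 : ℝ) < 1 / 3 by norm_num)
      linarith
    rw [abs_mul, abs_div, abs_of_pos hd0, abs_of_nonneg h1, fq]
    have h3 : (d : ℝ) ^ (-(2 / 3) : ℝ) = (d : ℝ) ^ (1 / 3 : ℝ) / d := by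
      rw [← Real.rpow_sub_one hd0.ne']
      norm_num
    rw [h3]
    calc |hq q d| / d * Real.log d ≤ |hq q d| / d * (3 * (d : ℝ) ^ (1 / 3 : ℝ)) := by gcongr
      _ = _ := by ring

theorem summ1 (q : ℕ) (hq0 : q ≠ 0) : Summable fun d : ℕ => hq q d / d :=
  Summable.of_norm_bounded (fq_summ q hq0).1 fun d => by
    rw [Real.norm_eq_abs]
    exact t1_bd q d

theorem summ2 (q : ℕ) (hq0 : q ≠ 0) : Summable fun d : ℕ => hq q d / d * Real.log d :=
  Summable.of_norm_bounded ((fq_summ q hq0).1.mul_left 3) fun d => by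
    rw [Real.norm_eq_abs]
    exact t2_bd q d

theorem asym (q : ℕ) (hq0 : q ≠ 0) {R : ℕ} (hR : 1 ≤ R) :
    |GGq q R - (Aq q * Real.log R + Bq q)| ≤
      5 * KK * (q.divisors.card : ℝ) * (R : ℝ) ^ (-(1 / 3) : ℝ) := by
  have hR0 : (0 : ℝ) < R := by exact_mod_cast hR
  set γ := Real.eulerMascheroniConstant with hγ
  have e1 : GGq q R = ∑' d : ℕ, hq q d / d * HH (R / d) := by
    rw [GGq_eq, tsum_eq_sum]
    intro d hd
    rw [mem_Icc, not_and_or, not_le, not_le] at hd
    rcases hd with h | h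
    · have : d = 0 := by omega
      rw [this]
      simp
    · rw [Nat.div_eq_of_lt h, HH_zero, mul_zero]
  have s1 := summ1 q hq0
  have s2 := summ2 q hq0
  have s3 : Summable fun d : ℕ => hq q d / d * (γ - Real.log d) := by
    refine ((s1.mul_left γ).sub s2).congr fun d => ?_
    ring
  have s4 : Summable fun d : ℕ => hq q d / d * HH (R / d) := by
    refine summable_of_ne_finset_zero (s := Icc 1 R) fun d hd => ?_
    rw [mem_Icc, not_and_or, not_le, not_le] at hd
    rcases hd with h | h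
    · have : d = 0 := by omega
      rw [this]
      simp
    · rw [Nat.div_eq_of_lt h, HH_zero, mul_zero]
  have e2 : Aq q * Real.log R + Bq q = ∑' d : ℕ, (hq q d / d * Real.log R +
      hq q d / d * (γ - Real.log d)) := by
    rw [(s1.mul_right (Real.log R)).tsum_add s3, tsum_mul_right]
    rfl
  rw [e1, e2, ← s4.tsum_sub ((s1.mul_right (Real.log R)).add s3)]
  obtain ⟨f1, f2⟩ := fq_summ q hq0
  have key : ∀ d : ℕ, |hq q d / d * HH (R / d) - (hq q d / d * Real.log R +
      hq q d / d * (γ - Real.log d))| ≤ 5 * (R : ℝ) ^ (-(1 / 3) : ℝ) * fq q d := by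
    intro d
    rcases Nat.eq_zero_or_pos d with h0 | h0
    · rw [h0, fq_zero]
      simp
    · have hd0 : (0 : ℝ) < d := by exact_mod_cast h0
      have e3 : hq q d / d * HH (R / d) - (hq q d / d * Real.log R +
          hq q d / d * (γ - Real.log d)) =
          hq q d / d * (HH (R / d) - (Real.log R - Real.log d + γ)) := by ring
      rw [e3, abs_mul, abs_div, abs_of_pos hd0]
      calc |hq q d| / d * |HH (R / d) - (Real.log R - Real.log d + γ)|
          ≤ |hq q d| / d * (5 * ((R : ℝ) / d) ^ (-(1 / 3) : ℝ)) := by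
            have := harm_bd hR h0
            gcongr
        _ = 5 * (R : ℝ) ^ (-(1 / 3) : ℝ) * fq q d := by
            rw [fq, Real.div_rpow hR0.le hd0.le, Real.rpow_neg hd0.le (1 / 3)]
            have h3 : (d : ℝ) ^ (-(2 / 3) : ℝ) = (d : ℝ) ^ (1 / 3 : ℝ) / d := by
              rw [← Real.rpow_sub_one hd0.ne']
              norm_num
            rw [h3, div_inv_eq_mul]
            ring
  have s5 : Summable fun d : ℕ => 5 * (R : ℝ) ^ (-(1 / 3) : ℝ) * fq q d := f1.mul_left _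
  have h1 : |∑' d : ℕ, (hq q d / d * HH (R / d) - (hq q d / d * Real.log R +
      hq q d / d * (γ - Real.log d)))| ≤ ∑' d : ℕ, 5 * (R : ℝ) ^ (-(1 / 3) : ℝ) * fq q d := by
    rw [← Real.norm_eq_abs]
    refine tsum_of_norm_bounded s5.hasSum fun d => ?_
    rw [Real.norm_eq_abs]
    exact key d
  refine h1.trans ?_
  rw [tsum_mul_left]
  calc 5 * (R : ℝ) ^ (-(1 / 3) : ℝ) * ∑' d, fq q d
      ≤ 5 * (R : ℝ) ^ (-(1 / 3) : ℝ) * (KK * (q.divisors.card : ℝ)) := by gcongr
    _ = _ := by ring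

end Pool.Agent.Helper9.AP
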